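import Pool.Agent.Helper78.ME.Goals

/-! # Packet DEC of the campaign ME (MP_c578c8_lc): digits of the codes of events -/

namespace Pool.Agent.Helper37.ME

open Pool.Agent.Helper78.ME Pool.Agent.Helper65.LinSpace Pool.Agent.Helper78.Mpc
  Pool.Agent.Helper28.Ram Finset Filter

theorem eq01_le (a b : ℕ) : eq01 a b ≤ 1 := by
  unfold eq01
  split_ifs <;> omega

theorem DEC : DEC_stmt where
  mk_lt := by
    intro m u l c hu hl hc
    have hidx : ∀ h < m.D * (m.k + 1), c (h / m.D) (h % m.D) % 2 ^ m.κ < 2 ^ m.κ :=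
      fun h _ => Nat.mod_lt _ (by positivity)
    have ht := tab_lt hidx
    have hv : m.mk' u l c = u + 2 ^ (m.S + 1) * (l + 2 ^ (m.S + 1) *
        tab (2 ^ m.κ) (m.D * (m.k + 1)) fun h => c (h / m.D) (h % m.D) % 2 ^ m.κ) := by
      unfold Prm.mk'
      rw [two_mul (m.S + 1), pow_add 2 (m.S + 1) (m.S + 1)]
      ring
    set t := tab (2 ^ m.κ) (m.D * (m.k + 1)) fun h => c (h / m.D) (h % m.D) % 2 ^ m.κ with htd
    have hAA : 2 ^ (2 * (m.S + 1)) = 2 ^ (m.S + 1) * 2 ^ (m.S + 1) := by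
      rw [two_mul, pow_add]
    have hσ : 2 ^ m.σ = 2 ^ (m.S + 1) * (2 ^ (m.S + 1) * (2 ^ m.κ) ^ (m.D * (m.k + 1))) := by
      unfold Prm.σ
      rw [pow_add, hAA, pow_mul 2 m.κ, mul_assoc]
    have hA : 0 < 2 ^ (m.S + 1) := by positivity
    obtain ⟨A, hAe⟩ : ∃ A, A = 2 ^ (m.S + 1) := ⟨_, rfl⟩
    rw [← hAe] at hu hl hv hAA hσ hA
    have hdiv : m.mk' u l c / A = l + A * t := by
      rw [hv, Nat.add_mul_div_left _ _ hA, Nat.div_eq_of_lt hu, zero_add]
    have hdiv2 : m.mk' u l c / (A * A) = t := by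
      rw [← Nat.div_div_eq_div_mul, hdiv, Nat.add_mul_div_left _ _ hA, Nat.div_eq_of_lt hl,
        zero_add]
    refine ⟨?_, ?_, ?_, ?_⟩
    · rw [hv, hσ]
      have h1 : l + A * t + 1 ≤ A * (2 ^ m.κ) ^ (m.D * (m.k + 1)) := by
        calc l + A * t + 1 ≤ A * (t + 1) := by
              rw [mul_add]
              omega
          _ ≤ _ := Nat.mul_le_mul_left _ ht
      calc u + A * (l + A * t) < A * (l + A * t + 1) := by
            rw [mul_add A (l + A * t) 1]
            omega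
        _ ≤ _ := Nat.mul_le_mul_left _ h1
    · change m.mk' u l c % 2 ^ (m.S + 1) = u
      rw [← hAe, hv, Nat.add_mul_mod_self_left, Nat.mod_eq_of_lt hu]
    · change m.mk' u l c / 2 ^ (m.S + 1) % 2 ^ (m.S + 1) = l
      rw [← hAe, hdiv, Nat.add_mul_mod_self_left, Nat.mod_eq_of_lt hl]
    · intro j hj i hi
      change dig (2 ^ m.κ) (m.mk' u l c / 2 ^ (2 * (m.S + 1))) (j * m.D + i) = c j i
      have hlt : j * m.D + i < m.D * (m.k + 1) := by
        calc j * m.D + i < j * m.D + m.D := by omega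
          _ = m.D * (j + 1) := by ring
          _ ≤ _ := Nat.mul_le_mul_left _ (by omega)
      have hD : 0 < m.D := by omega
      have e1 : (j * m.D + i) / m.D = j := by
        rw [add_comm, Nat.add_mul_div_right _ _ hD, Nat.div_eq_of_lt hi, zero_add]
      have e2 : (j * m.D + i) % m.D = i := by
        rw [add_comm, Nat.add_mul_mod_self_right, Nat.mod_eq_of_lt hi]
      rw [hAA, hdiv2, htd, dig_tab hidx hlt, e1, e2, Nat.mod_eq_of_lt (hc j hj i hi)]
  cq_lt := fun m v j i => dig_lt (by positivity) _ _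
  dig_pos := fun m v j i hi => dig_tab (fun i _ => dig_lt (by positivity) _ _) hi
  aj_lt := by
    intro m v hk
    unfold Prm.aj
    have : ∑ i ∈ range (m.k - 1), eq01 (letN (m.wq v) (2 * m.D + 1 + i)) 2 ≤
        ∑ _i ∈ range (m.k - 1), 1 := sum_le_sum fun i _ => eq01_le _ _
    simp only [sum_const, card_range, smul_eq_mul, mul_one] at this
    omega

end Pool.Agent.Helper37.ME
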